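import Mathlib

set_option autoImplicit false

namespace Pool.Agent.Helper830.KC

open Finset Classical

universe u

variable {V : Type u}

/-- matching number of a finite family -/
noncomputable def nu (F : Finset (Finset V)) : ℕ :=
  (F.powerset.filter (fun D : Finset (Finset V) =>
    (D : Set (Finset V)).PairwiseDisjoint id)).sup Finset.card

/-- the Konig property, with all chosen edges in `E'` -/
def KonigIn (E' E : Set (Finset V)) : Prop :=
  ∃ D : Set (Finset V), D ⊆ E' ∧ D.PairwiseDisjoint id ∧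
    ∃ f : Finset V → V, (∀ d ∈ D, f d ∈ d) ∧ ∀ e ∈ E, ∃ d ∈ D, f d ∈ e

def LocFin (E : Set (Finset V)) : Prop := ∀ v : V, {e ∈ E | v ∈ e}.Finite

/-- `E'` spans `E`: matching numbers of suitable finite parts of `E'` are not increased by
adding finitely many edges of `E` -/
def Spans (E' E : Set (Finset V)) : Prop :=
  E' ⊆ E ∧ ∀ F : Finset (Finset V), (F : Set (Finset V)) ⊆ E →
    ∀ G0 : Finset (Finset V), (G0 : Set (Finset V)) ⊆ E' →
      ∃ G : Finset (Finset V), G0 ⊆ G ∧ (G : Set (Finset V)) ⊆ E' ∧ nu (G ∪ F) = nu G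



theorem nu_facts :
    (∀ F F' : Finset (Finset V), F ⊆ F' → nu F ≤ nu F') ∧
    (∀ F : Finset (Finset V), ∃ D, D ⊆ F ∧ (D : Set (Finset V)).PairwiseDisjoint id ∧ D.card = nu F) ∧
    (∀ F D : Finset (Finset V), D ⊆ F → (D : Set (Finset V)).PairwiseDisjoint id → D.card ≤ nu F) := by
  have h3 : ∀ F D : Finset (Finset V), D ⊆ F → (D : Set (Finset V)).PairwiseDisjoint id → D.card ≤ nu F := by
    intro F D hD hdis
    unfold nu
    exact Finset.le_sup (f := Finset.card) (mem_filter.2 ⟨mem_powerset.2 hD, hdis⟩)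
  have h2 : ∀ F : Finset (Finset V), ∃ D, D ⊆ F ∧ (D : Set (Finset V)).PairwiseDisjoint id ∧ D.card = nu F := by
    intro F
    have hne : (F.powerset.filter (fun D : Finset (Finset V) =>
      (D : Set (Finset V)).PairwiseDisjoint id)).Nonempty :=
      ⟨∅, mem_filter.2 ⟨mem_powerset.2 (empty_subset _), by simp⟩⟩
    obtain ⟨D, hD, hDe⟩ := Finset.exists_mem_eq_sup _ hne Finset.card
    rw [mem_filter, mem_powerset] at hD
    refine ⟨D, hD.1, hD.2, ?_⟩
    unfold nu
    rw [hDe]
  refine ⟨?_, h2, h3⟩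
  intro F F' hFF
  obtain ⟨D, hD1, hD2, hD3⟩ := h2 F
  rw [← hD3]
  exact h3 F' D (hD1.trans hFF) hD2




theorem nu_add (F : Finset (Finset V)) (S : Finset V) :
    nu F ≤ nu (F.filter (fun e => Disjoint e S)) + S.card := by
  conv_lhs => unfold nu
  refine Finset.sup_le fun D hD => ?_
  rw [Finset.mem_filter, Finset.mem_powerset] at hD
  obtain ⟨hDF, hDd⟩ := hD
  have h1 : (D.filter (fun e => Disjoint e S)).card ≤
      nu (F.filter (fun e => Disjoint e S)) := by
    unfold nu
    refine Finset.le_sup (f := Finset.card) ?_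
    rw [Finset.mem_filter, Finset.mem_powerset]
    refine ⟨Finset.filter_subset_filter _ hDF, ?_⟩
    refine hDd.subset ?_
    intro e he
    exact Finset.mem_coe.2 (Finset.mem_filter.1 (Finset.mem_coe.1 he)).1
  have h2 : (D.filter (fun e => ¬ Disjoint e S)).card ≤ S.card := by
    let pt : Finset V → Option V := fun e =>
      if h : ¬ Disjoint e S then some (Finset.not_disjoint_iff.1 h).choose else none
    have hpt : ∀ e, ¬ Disjoint e S → ∃ a, pt e = some a ∧ a ∈ e ∧ a ∈ S := by
      intro e h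
      refine ⟨(Finset.not_disjoint_iff.1 h).choose, dif_pos h, ?_⟩
      exact (Finset.not_disjoint_iff.1 h).choose_spec
    have hcard : (D.filter (fun e => ¬ Disjoint e S)).card ≤ (S.image some).card := by
      refine Finset.card_le_card_of_injOn pt ?_ ?_
      · intro e he
        have he' := (Finset.mem_filter.1 (Finset.mem_coe.1 he)).2
        obtain ⟨a, h1, h2, h3⟩ := hpt e he'
        rw [h1]
        exact Finset.mem_coe.2 (Finset.mem_image.2 ⟨a, h3, rfl⟩)
      · intro e he e' he' heq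
        obtain ⟨m1, n1⟩ := Finset.mem_filter.1 (Finset.mem_coe.1 he)
        obtain ⟨m2, n2⟩ := Finset.mem_filter.1 (Finset.mem_coe.1 he')
        obtain ⟨a, a1, a2, a3⟩ := hpt e n1
        obtain ⟨b, b1, b2, b3⟩ := hpt e' n2
        rw [a1, b1] at heq
        have hab : a = b := Option.some.inj heq
        by_contra hne
        have hdis := hDd (Finset.mem_coe.2 m1) (Finset.mem_coe.2 m2) hne
        have hdis' : Disjoint e e' := hdis
        exact Finset.disjoint_left.1 hdis' a2 (hab ▸ b2)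
    exact hcard.trans Finset.card_image_le
  have h3 := Finset.card_filter_add_card_filter_not (s := D) (fun e => Disjoint e S)
  omega




theorem nu_biUnion_le_nu {F D : Finset (Finset V)} (hD : D ⊆ F)
    (hp : (D : Set (Finset V)).PairwiseDisjoint id) : D.card ≤ nu F :=
  Finset.le_sup (f := Finset.card) (Finset.mem_filter.2 ⟨Finset.mem_powerset.2 hD, hp⟩)

theorem nu_biUnion_opt (F : Finset (Finset V)) : ∃ D : Finset (Finset V), D ⊆ F ∧
    (D : Set (Finset V)).PairwiseDisjoint id ∧ D.card = nu F := by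
  have hne : (F.powerset.filter (fun D : Finset (Finset V) =>
    (D : Set (Finset V)).PairwiseDisjoint id)).Nonempty := by
    refine ⟨∅, Finset.mem_filter.2 ⟨Finset.empty_mem_powerset _, ?_⟩⟩
    intro a ha
    simp at ha
  obtain ⟨D, hD, hc⟩ := Finset.exists_mem_eq_sup _ hne Finset.card
  rw [Finset.mem_filter, Finset.mem_powerset] at hD
  exact ⟨D, hD.1, hD.2, hc.symm⟩

/-- matching numbers add up over vertex-disjoint families of nonempty edges -/
theorem nu_biUnion {ι : Type u} (s : Finset ι) (A : ι → Finset (Finset V))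
    (hne : ∀ i ∈ s, ∀ e ∈ A i, e.Nonempty)
    (hdis : ∀ i ∈ s, ∀ k ∈ s, i ≠ k → ∀ e ∈ A i, ∀ f ∈ A k, Disjoint e f) :
    nu (s.biUnion A) = ∑ i ∈ s, nu (A i) := by
  apply le_antisymm
  · obtain ⟨D, hD, hp, hc⟩ := nu_biUnion_opt (s.biUnion A)
    rw [← hc]
    have h1 : D ⊆ s.biUnion (fun i => D ∩ A i) := by
      intro e he
      obtain ⟨i, hi, hei⟩ := Finset.mem_biUnion.1 (hD he)
      exact Finset.mem_biUnion.2 ⟨i, hi, Finset.mem_inter.2 ⟨he, hei⟩⟩
    calc D.card ≤ (s.biUnion (fun i => D ∩ A i)).card := Finset.card_le_card h1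
      _ ≤ ∑ i ∈ s, (D ∩ A i).card := Finset.card_biUnion_le
      _ ≤ ∑ i ∈ s, nu (A i) := by
        refine Finset.sum_le_sum (fun i _ => ?_)
        refine nu_biUnion_le_nu Finset.inter_subset_right ?_
        exact hp.subset (by exact_mod_cast Finset.inter_subset_left)
  · have hex : ∀ i, ∃ D : Finset (Finset V), D ⊆ A i ∧
        (D : Set (Finset V)).PairwiseDisjoint id ∧ D.card = nu (A i) := fun i => nu_biUnion_opt (A i)
    choose D hD hp hc using hex
    have hcard : (s.biUnion D).card = ∑ i ∈ s, (D i).card := by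
      refine Finset.card_biUnion ?_
      intro i hi k hk hik
      rw [Function.onFun, Finset.disjoint_left]
      intro e he1 he2
      have h1 := hdis i hi k hk hik e (hD i he1) e (hD k he2)
      have h2 := hne i hi e (hD i he1)
      rw [disjoint_self] at h1
      rw [h1] at h2
      exact Finset.not_nonempty_empty h2
    have h3 : ∑ i ∈ s, nu (A i) = (s.biUnion D).card := by
      rw [hcard]
      exact Finset.sum_congr rfl (fun i _ => (hc i).symm)
    rw [h3]
    refine nu_biUnion_le_nu ?_ ?_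
    · exact Finset.biUnion_mono (fun i _ => hD i)
    · intro e he f hf hef
      rw [Finset.mem_coe, Finset.mem_biUnion] at he hf
      obtain ⟨i, hi, hei⟩ := he
      obtain ⟨k, hk, hfk⟩ := hf
      by_cases hik : i = k
      · subst hik
        exact hp i hei hfk hef
      · exact hdis i hi k hk hik e (hD i hei) f (hD k hfk)




theorem konig_pair (F G : Finset (Finset V)) (hGF : G ⊆ F) (hnu : nu F = nu G)
    (hK : KonigIn (F : Set (Finset V)) (F : Set (Finset V))) :
    ∃ D : Finset (Finset V), D ⊆ G ∧ (D : Set (Finset V)).PairwiseDisjoint id ∧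
      ∃ f : Finset V → V, (∀ d ∈ D, f d ∈ d) ∧ ∀ e ∈ F, ∃ d ∈ D, f d ∈ e := by
  obtain ⟨D0, hD0F, hD0, f0, hf0, hcov⟩ := hK
  set D1 : Finset (Finset V) := F.filter (fun d => d ∈ D0) with hD1
  have hmem1 : ∀ d, d ∈ D1 ↔ d ∈ D0 := by
    intro d
    rw [hD1, Finset.mem_filter]
    exact ⟨fun h => h.2, fun h => ⟨hD0F h, h⟩⟩
  set C : Finset V := D1.image f0 with hC
  have hCcard : C.card ≤ nu F := by
    refine Finset.card_image_le.trans ?_
    unfold nu
    apply Finset.le_sup (f := Finset.card)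
    rw [Finset.mem_filter, Finset.mem_powerset]
    refine ⟨Finset.filter_subset _ _, ?_⟩
    intro a ha b hb hab
    exact hD0 ((hmem1 a).1 ha) ((hmem1 b).1 hb) hab
  obtain ⟨D, hDmem, hDcard⟩ : ∃ D ∈ G.powerset.filter (fun D : Finset (Finset V) =>
      (D : Set (Finset V)).PairwiseDisjoint id), nu G = D.card := by
    unfold nu
    apply Finset.exists_mem_eq_sup
    refine ⟨∅, ?_⟩
    rw [Finset.mem_filter, Finset.mem_powerset]
    refine ⟨Finset.empty_subset _, ?_⟩
    simp
  rw [Finset.mem_filter, Finset.mem_powerset] at hDmem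
  obtain ⟨hDG, hDdis⟩ := hDmem
  let f : Finset V → V := fun d => if h : ∃ d' ∈ D0, f0 d' ∈ d then f0 h.choose else f0 d
  have hf : ∀ d ∈ D, f d ∈ d ∧ f d ∈ C := by
    intro d hd
    have h : ∃ d' ∈ D0, f0 d' ∈ d := hcov d (hGF (hDG hd))
    have hfd : f d = f0 h.choose := dif_pos h
    rw [hfd]
    refine ⟨h.choose_spec.2, ?_⟩
    rw [hC, Finset.mem_image]
    exact ⟨h.choose, (hmem1 _).2 h.choose_spec.1, rfl⟩
  have hinj : Set.InjOn f (D : Set (Finset V)) := by
    intro a ha b hb hab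
    by_contra hne
    have h1 := hDdis ha hb hne
    have h2 := (hf a ha).1
    have h3 := (hf b hb).1
    rw [← hab] at h3
    exact (Finset.disjoint_left.1 h1 h2 h3)
  have himg : D.image f = C := by
    apply Finset.eq_of_subset_of_card_le
    · intro x hx
      obtain ⟨d, hd, rfl⟩ := Finset.mem_image.1 hx
      exact (hf d hd).2
    · rw [Finset.card_image_of_injOn hinj, ← hDcard, ← hnu]
      exact hCcard
  refine ⟨D, hDG, hDdis, f, fun d hd => (hf d hd).1, ?_⟩
  intro e he
  obtain ⟨d', hd', hfe⟩ := hcov e he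
  have h1 : f0 d' ∈ D.image f := by
    rw [himg, hC, Finset.mem_image]
    exact ⟨d', (hmem1 _).2 hd', rfl⟩
  obtain ⟨d, hd, hdf⟩ := Finset.mem_image.1 h1
  exact ⟨d, hd, by rw [hdf]; exact hfe⟩




theorem compactness (E' E : Set (Finset V)) (hloc : LocFin E')
    (h : ∀ F : Finset (Finset V), (F : Set (Finset V)) ⊆ E → ∃ D : Finset (Finset V),
      (D : Set (Finset V)) ⊆ E' ∧ (D : Set (Finset V)).PairwiseDisjoint id ∧
      ∃ f : Finset V → V, (∀ d ∈ D, f d ∈ d) ∧ ∀ e ∈ F, ∃ d ∈ D, f d ∈ e) :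
    KonigIn E' E := by
  have h' : ∀ F : {F : Finset (Finset V) // (F : Set (Finset V)) ⊆ E}, ∃ D : Finset (Finset V),
      (D : Set (Finset V)) ⊆ E' ∧ (D : Set (Finset V)).PairwiseDisjoint id ∧
      ∃ f : Finset V → V, (∀ d ∈ D, f d ∈ d) ∧ ∀ e ∈ F.1, ∃ d ∈ D, f d ∈ e :=
    fun F => h F.1 F.2
  choose Dd hD1 hD2 ff hf1 hf2 using h'
  have : Nonempty {F : Finset (Finset V) // (F : Set (Finset V)) ⊆ E} := ⟨⟨∅, by simp⟩⟩
  have : IsDirectedOrder {F : Finset (Finset V) // (F : Set (Finset V)) ⊆ E} :=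
    ⟨fun a b => ⟨⟨a.1 ∪ b.1, by
      rw [Finset.coe_union]
      exact Set.union_subset a.2 b.2⟩, by
        show a.1 ⊆ a.1 ∪ b.1
        exact Finset.subset_union_left, by
        show b.1 ⊆ a.1 ∪ b.1
        exact Finset.subset_union_right⟩⟩
  let U : Ultrafilter {F : Finset (Finset V) // (F : Set (Finset V)) ⊆ E} :=
    Ultrafilter.of Filter.atTop
  have hU : (U : Filter {F : Finset (Finset V) // (F : Set (Finset V)) ⊆ E}) ≤ Filter.atTop :=
    Ultrafilter.of_le Filter.atTop
  let P : Finset V → V → Prop := fun d v => ∀ᶠ F in (U : Filter {F : Finset (Finset V) // (F : Set (Finset V)) ⊆ E}), d ∈ Dd F ∧ ff F d = v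
  have hPuniq : ∀ d v v', P d v → P d v' → v = v' := by
    intro d v v' h1 h2
    obtain ⟨F, h3, h4⟩ := (h1.and h2).exists
    exact h3.2.symm.trans h4.2
  let F0 : {F : Finset (Finset V) // (F : Set (Finset V)) ⊆ E} := ⟨∅, by simp⟩
  let f : Finset V → V := fun d => if h : ∃ v, P d v then h.choose else ff F0 d
  have hf : ∀ d v, P d v → f d = v := by
    intro d v hv
    have hex : ∃ v, P d v := ⟨v, hv⟩
    have : f d = hex.choose := dif_pos hex
    rw [this]
    exact hPuniq d _ _ hex.choose_spec hv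
  refine ⟨{d | ∃ v, P d v}, ?_, ?_, f, ?_, ?_⟩
  · rintro d ⟨v, hv⟩
    obtain ⟨F, hF⟩ := hv.exists
    exact hD1 F hF.1
  · rintro d ⟨v, hv⟩ d' ⟨v', hv'⟩ hne
    obtain ⟨F, hF, hF'⟩ := (hv.and hv').exists
    exact hD2 F hF.1 hF'.1 hne
  · rintro d ⟨v, hv⟩
    rw [hf d v hv]
    obtain ⟨F, hF⟩ := hv.exists
    rw [← hF.2]
    exact hf1 F d hF.1
  · intro e he
    have h1 : ∀ᶠ F in (U : Filter {F : Finset (Finset V) // (F : Set (Finset V)) ⊆ E}), e ∈ F.1 := by
      refine hU ?_
      filter_upwards [Filter.eventually_ge_atTop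
        (⟨{e}, by simpa using he⟩ : {F : Finset (Finset V) // (F : Set (Finset V)) ⊆ E})] with F hF
      exact hF (Finset.mem_singleton_self e)
    have h2 : ∀ᶠ F in (U : Filter {F : Finset (Finset V) // (F : Set (Finset V)) ⊆ E}), ∃ v ∈ (e : Set V), ∃ d ∈ {d ∈ E' | v ∈ d},
        d ∈ Dd F ∧ ff F d = v := by
      filter_upwards [h1] with F hF
      obtain ⟨d, hd, hde⟩ := hf2 F e hF
      exact ⟨ff F d, hde, d, ⟨hD1 F hd, hf1 F d hd⟩, hd, rfl⟩
    rw [Ultrafilter.eventually_exists_mem_iff e.finite_toSet] at h2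
    obtain ⟨v, hv, h3⟩ := h2
    rw [Ultrafilter.eventually_exists_mem_iff (hloc v)] at h3
    obtain ⟨d, hd, h4⟩ := h3
    refine ⟨d, ⟨v, h4⟩, ?_⟩
    rw [hf d v h4]
    exact hv




theorem union {ι : Type u} (c c' : ι → Set (Finset V))
    (nu_biUnion : ∀ (s : Finset ι) (A : ι → Finset (Finset V)),
      (∀ i ∈ s, ∀ e ∈ A i, e.Nonempty) →
      (∀ i ∈ s, ∀ k ∈ s, i ≠ k → ∀ e ∈ A i, ∀ f ∈ A k, Disjoint e f) →
      nu (s.biUnion A) = ∑ i ∈ s, nu (A i))
    (hne : ∀ i, ∀ e ∈ c i, e.Nonempty)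
    (hdis : ∀ i k, i ≠ k → ∀ e ∈ c i, ∀ f ∈ c k, Disjoint e f)
    (h : ∀ i, Spans (c' i) (c i)) (hloc : ∀ i, LocFin (c' i)) :
    Spans (⋃ i, c' i) (⋃ i, c i) ∧ LocFin (⋃ i, c' i) := by
  have huniq : ∀ i k, ∀ e ∈ c i, e ∈ c k → i = k := by
    intro i k e hi hk
    by_contra hik
    have := hdis i k hik e hi e hk
    rw [disjoint_self] at this
    have hne' := hne i e hi
    rw [this] at hne'
    exact (Finset.not_nonempty_empty hne').elim
  refine ⟨⟨Set.iUnion_mono fun i => (h i).1, ?_⟩, ?_⟩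
  · intro F hF G0 hG0
    have hT : ∀ e ∈ F ∪ G0, ∃ i, e ∈ c i := by
      intro e he
      rcases Finset.mem_union.1 he with he | he
      · exact Set.mem_iUnion.1 (hF (Finset.mem_coe.2 he))
      · obtain ⟨i, hi⟩ := Set.mem_iUnion.1 (hG0 (Finset.mem_coe.2 he))
        exact ⟨i, (h i).1 hi⟩
    choose f hf using hT
    obtain ⟨s, hs⟩ : ∃ s : Finset ι, s = (F ∪ G0).attach.image (fun e => f e.1 e.2) := ⟨_, rfl⟩
    have hsmem : ∀ e ∈ F ∪ G0, ∀ i, e ∈ c i → i ∈ s := by
      intro e he i hi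
      have h1 : i = f e he := huniq i (f e he) e hi (hf e he)
      rw [hs, h1]
      exact Finset.mem_image.2 ⟨⟨e, he⟩, Finset.mem_attach _ _, rfl⟩
    choose G hG1 hG2 hG3 using fun i => (h i).2 (F.filter (· ∈ c i))
      (fun e he => (Finset.mem_filter.1 (Finset.mem_coe.1 he)).2) (G0.filter (· ∈ c' i))
      (fun e he => (Finset.mem_filter.1 (Finset.mem_coe.1 he)).2)
    have hGc : ∀ i, ∀ e ∈ G i, e ∈ c i := fun i e he => (h i).1 (hG2 i (Finset.mem_coe.2 he))
    have hGF : ∀ i, ∀ e ∈ G i ∪ F.filter (· ∈ c i), e ∈ c i := by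
      intro i e he
      rcases Finset.mem_union.1 he with he | he
      · exact hGc i e he
      · exact (Finset.mem_filter.1 he).2
    refine ⟨s.biUnion G, ?_, ?_, ?_⟩
    · intro e he
      obtain ⟨i, hi⟩ := Set.mem_iUnion.1 (hG0 (Finset.mem_coe.2 he))
      have his : i ∈ s := hsmem e (Finset.mem_union_right _ he) i ((h i).1 hi)
      exact Finset.mem_biUnion.2 ⟨i, his, hG1 i (Finset.mem_filter.2 ⟨he, hi⟩)⟩
    · intro e he
      obtain ⟨i, -, hi⟩ := Finset.mem_biUnion.1 (Finset.mem_coe.1 he)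
      exact Set.mem_iUnion.2 ⟨i, hG2 i (Finset.mem_coe.2 hi)⟩
    · have h1 : s.biUnion G ∪ F = s.biUnion (fun i => G i ∪ F.filter (· ∈ c i)) := by
        ext e
        constructor
        · intro he
          rcases Finset.mem_union.1 he with he | he
          · obtain ⟨i, hi, hi'⟩ := Finset.mem_biUnion.1 he
            exact Finset.mem_biUnion.2 ⟨i, hi, Finset.mem_union_left _ hi'⟩
          · obtain ⟨i, hi⟩ := Set.mem_iUnion.1 (hF (Finset.mem_coe.2 he))
            exact Finset.mem_biUnion.2 ⟨i, hsmem e (Finset.mem_union_left _ he) i hi,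
              Finset.mem_union_right _ (Finset.mem_filter.2 ⟨he, hi⟩)⟩
        · intro he
          obtain ⟨i, hi, hi'⟩ := Finset.mem_biUnion.1 he
          rcases Finset.mem_union.1 hi' with hi' | hi'
          · exact Finset.mem_union_left _ (Finset.mem_biUnion.2 ⟨i, hi, hi'⟩)
          · exact Finset.mem_union_right _ (Finset.mem_filter.1 hi').1
      rw [h1, nu_biUnion s (fun i => G i ∪ F.filter (· ∈ c i))
        (fun i _ e he => hne i e (hGF i e he))
        (fun i _ k _ hik e he e' he' => hdis i k hik e (hGF i e he) e' (hGF k e' he')),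
        nu_biUnion s G (fun i _ e he => hne i e (hGc i e he))
        (fun i _ k _ hik e he e' he' => hdis i k hik e (hGc i e he) e' (hGc k e' he'))]
      exact Finset.sum_congr rfl fun i _ => hG3 i
  · intro v
    by_cases hex : ∃ i, ∃ e ∈ c' i, v ∈ e
    · obtain ⟨i, e0, he0, hv0⟩ := hex
      refine (hloc i v).subset ?_
      rintro e ⟨he, hv⟩
      obtain ⟨k, hk⟩ := Set.mem_iUnion.1 he
      have hik : i = k := by
        by_contra hik
        exact Finset.disjoint_left.1 (hdis i k hik e0 ((h i).1 he0) e ((h k).1 hk)) hv0 hv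
      subst hik
      exact ⟨hk, hv⟩
    · have : {e ∈ ⋃ i, c' i | v ∈ e} = ∅ := by
        ext e
        simp only [Set.mem_iUnion, Set.mem_empty_iff_false, iff_false]
        rintro ⟨⟨i, hi⟩, hv⟩
        exact hex ⟨i, e, hi, hv⟩
      rw [this]
      exact Set.finite_empty




theorem step (E B : Set (Finset V)) (S : Finset V)
    (nu_mono : ∀ F F' : Finset (Finset V), F ⊆ F' → nu F ≤ nu F')
    (nu_add : ∀ (F : Finset (Finset V)) (S : Finset V),
      nu F ≤ nu (F.filter (fun e => Disjoint e S)) + S.card)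
    (hB : Spans B {e ∈ E | Disjoint e S}) :
    ∃ X : Finset (Finset V), (X : Set (Finset V)) ⊆ E ∧ Spans (B ∪ (X : Set (Finset V))) E := by
  obtain ⟨hBE, hsp⟩ := hB
  let P : Finset (Finset V) → ℕ → Prop := fun X m =>
    ∀ F : Finset (Finset V), (F : Set (Finset V)) ⊆ {e ∈ E | Disjoint e S} →
      ∀ G0 : Finset (Finset V), (G0 : Set (Finset V)) ⊆ B →
        ∃ G : Finset (Finset V), G0 ⊆ G ∧ (G : Set (Finset V)) ⊆ B ∧ nu (G ∪ F) = nu G ∧
          nu G + m ≤ nu (G ∪ X)
  let Q : ℕ → Prop := fun m => ∃ X : Finset (Finset V), (X : Set (Finset V)) ⊆ E ∧ P X m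
  have hQ0 : Q 0 := by
    refine ⟨∅, by simp, ?_⟩
    intro F hF G0 hG0
    obtain ⟨G, h1, h2, h3⟩ := hsp F hF G0 hG0
    exact ⟨G, h1, h2, h3, by simp⟩
  have hQb : ∀ m, Q m → m ≤ S.card := by
    rintro m ⟨X, hX, hP⟩
    obtain ⟨G, _, h2, h3, h4⟩ := hP (X.filter (fun e => Disjoint e S)) (by
      intro e he
      simp only [Finset.coe_filter, Set.mem_setOf_eq] at he
      exact ⟨hX (by simpa using he.1), he.2⟩) ∅ (by simp)
    have h5 := nu_add (G ∪ X) S
    have h6 : (G ∪ X).filter (fun e => Disjoint e S) = G ∪ X.filter (fun e => Disjoint e S) := by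
      rw [Finset.filter_union]
      congr 1
      apply Finset.filter_true_of_mem
      intro e he
      exact (hBE (h2 (by simpa using he))).2
    rw [h6, h3] at h5
    omega
  have hex : ∃ m, ¬ Q m := ⟨S.card + 1, fun h => by have := hQb _ h; omega⟩
  set m0 := Nat.find hex with hm0
  have hm1 : ¬ Q m0 := Nat.find_spec hex
  have hm0pos : m0 ≠ 0 := fun h => hm1 (by rw [h]; exact hQ0)
  have hm2 : Q (m0 - 1) := by
    by_contra h
    exact Nat.find_min hex (show m0 - 1 < Nat.find hex by omega) h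
  obtain ⟨X, hX, hPX⟩ := hm2
  refine ⟨X, hX, ?_, ?_⟩
  · intro e he
    rcases he with he | he
    · exact (hBE he).1
    · exact hX he
  · intro F hF G0 hG0
    have hF1 : ((F ∪ G0 ∪ X : Finset (Finset V)) : Set (Finset V)) ⊆ E := by
      intro e he
      simp only [Finset.coe_union, Set.mem_union] at he
      rcases he with (he | he) | he
      · exact hF he
      · rcases hG0 he with h | h
        · exact (hBE h).1
        · exact hX h
      · exact hX he
    have hnP : ¬ P (F ∪ G0 ∪ X) m0 := fun h => hm1 ⟨_, hF1, h⟩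
    simp only [P] at hnP
    push Not at hnP
    obtain ⟨Fa, hFa, Ga, hGa, hall⟩ := hnP
    obtain ⟨G, h1, h2, h3, h4⟩ := hPX Fa hFa (Ga ∪ G0.filter (fun e => e ∈ B)) (by
      intro e he
      simp only [Finset.coe_union, Finset.coe_filter, Set.mem_union, Set.mem_setOf_eq] at he
      rcases he with he | he
      · exact hGa he
      · exact he.2)
    have h5 := hall G (fun e he => h1 (Finset.mem_union_left _ he)) h2 h3
    have h6 : nu (G ∪ X) ≤ nu (G ∪ (F ∪ G0 ∪ X)) :=
      nu_mono _ _ (Finset.union_subset_union_right (Finset.subset_union_right))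
    have h7 : nu (G ∪ (F ∪ G0 ∪ X)) = nu (G ∪ X) := by omega
    refine ⟨G ∪ X, ?_, ?_, ?_⟩
    · intro e he
      rw [Finset.mem_union]
      rcases hG0 (by simpa using he) with h | h
      · left
        exact h1 (Finset.mem_union_right _ (Finset.mem_filter.2 ⟨he, h⟩))
      · right
        simpa using h
    · intro e he
      simp only [Finset.coe_union, Set.mem_union] at he ⊢
      rcases he with he | he
      · exact Or.inl (h2 he)
      · exact Or.inr he
    · apply le_antisymm
      · rw [← h7]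
        apply nu_mono
        intro e he
        simp only [Finset.mem_union] at he ⊢
        tauto
      · exact nu_mono _ _ Finset.subset_union_left


/-- the class of recursively locally finite hypergraphs -/
inductive Tame : Set (Finset V) → Prop
  | locFin (E : Set (Finset V)) (h : ∀ v : V, {e ∈ E | v ∈ e}.Finite) : Tame E
  | step (S : Finset V) (ι : Type u) (c : ι → Set (Finset V)) (E : Set (Finset V))
      (hE : {e ∈ E | Disjoint e S} = ⋃ i, c i)
      (hdis : ∀ i k, i ≠ k → ∀ e ∈ c i, ∀ f ∈ c k, Disjoint e f)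
      (h : ∀ i, Tame (c i)) : Tame E

theorem spans_self (E : Set (Finset V)) : Spans E E := by
  refine ⟨subset_rfl, fun F hF G0 hG0 => ⟨G0 ∪ F, subset_union_left, ?_, ?_⟩⟩
  · rw [coe_union]
    exact Set.union_subset hG0 hF
  · rw [union_assoc, union_self]

theorem tame_spans (E : Set (Finset V)) (hE : Tame E) :
    (∀ e ∈ E, e.Nonempty) → ∃ E' : Set (Finset V), LocFin E' ∧ Spans E' E := by
  induction hE with
  | locFin E h => exact fun _ => ⟨E, h, spans_self E⟩
  | step S ι c E hE hdis h ih =>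
    intro hne
    have hsub : ∀ i, c i ⊆ E := by
      intro i e he
      have : e ∈ {e ∈ E | Disjoint e S} := by
        rw [hE]; exact Set.mem_iUnion.mpr ⟨i, he⟩
      exact this.1
    have hcne : ∀ i, ∀ e ∈ c i, e.Nonempty := fun i e he => hne e (hsub i he)
    choose c' hloc hsp using fun i => ih i (hcne i)
    obtain ⟨h1, h2⟩ := union c c' (fun s A => nu_biUnion s A) hcne hdis hsp hloc
    rw [← hE] at h1
    obtain ⟨X, hX, hXs⟩ := step E _ S nu_facts.1 nu_add h1
    refine ⟨_, ?_, hXs⟩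
    intro v
    have : {e ∈ (⋃ i, c' i) ∪ (X : Set (Finset V)) | v ∈ e}
        ⊆ {e ∈ (⋃ i, c' i) | v ∈ e} ∪ (X : Set (Finset V)) := by
      rintro e ⟨he | he, hv⟩
      · exact Or.inl ⟨he, hv⟩
      · exact Or.inr he
    exact ((h2 v).union X.finite_toSet).subset this

theorem spans_konig (E E' : Set (Finset V))
    (hfin : ∀ F : Set (Finset V), F ⊆ E → F.Finite → KonigIn F F)
    (hloc : LocFin E') (hsp : Spans E' E) : KonigIn E E := by
  have h1 : KonigIn E' E := by
    refine compactness E' E hloc ?_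
    intro F hF
    obtain ⟨G, -, hG, hnu⟩ := hsp.2 F hF ∅ (by simp)
    have hK : KonigIn ((G ∪ F : Finset (Finset V)) : Set (Finset V))
        ((G ∪ F : Finset (Finset V)) : Set (Finset V)) := by
      refine hfin _ ?_ (Finset.finite_toSet _)
      rw [coe_union]
      exact Set.union_subset (hG.trans hsp.1) hF
    obtain ⟨D, hD, hdisj, f, hf, hcov⟩ := konig_pair (G ∪ F) G subset_union_left hnu hK
    exact ⟨D, fun d hd => hG (hD hd), hdisj, f, hf, fun e he => hcov e (mem_union_right _ he)⟩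
  obtain ⟨D, hD, hdisj, f, hf, hcov⟩ := h1
  exact ⟨D, hD.trans hsp.1, hdisj, f, hf, hcov⟩

theorem fin_nonempty (E : Set (Finset V))
    (hfin : ∀ F : Set (Finset V), F ⊆ E → F.Finite → KonigIn F F) : ∀ e ∈ E, e.Nonempty := by
  intro e he
  obtain ⟨D, -, -, f, -, hcov⟩ := hfin {e} (by simpa using he) (Set.finite_singleton e)
  obtain ⟨d, -, h⟩ := hcov e rfl
  exact ⟨_, h⟩

theorem tame_konig (E : Set (Finset V)) (hE : Tame E)
    (hfin : ∀ F : Set (Finset V), F ⊆ E → F.Finite → KonigIn F F) : KonigIn E E := by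
  obtain ⟨E', hloc, hsp⟩ := tame_spans E hE (fin_nonempty E hfin)
  exact spans_konig E E' hfin hloc hsp

theorem finite_apex_tame (E : Set (Finset V)) (S : Finset V)
    (hS : ∀ v : V, {e ∈ E | v ∈ e ∧ Disjoint e S}.Finite) : Tame E := by
  refine Tame.step S PUnit (fun _ => {e ∈ E | Disjoint e S}) E ?_ ?_ ?_
  · ext e; simp
  · intro i k hik
    exact absurd (Subsingleton.elim i k) hik
  · intro _
    refine Tame.locFin _ ?_
    intro v
    refine (hS v).subset ?_
    rintro e ⟨⟨h1, h2⟩, h3⟩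
    exact ⟨h1, h3, h2⟩




theorem konig_spans (E : Set (Finset V)) (h : KonigIn E E)
    (nu_mono : ∀ F F' : Finset (Finset V), F ⊆ F' → nu F ≤ nu F')
    (nu_att : ∀ F : Finset (Finset V), ∃ D, D ⊆ F ∧
      (D : Set (Finset V)).PairwiseDisjoint id ∧ D.card = nu F)
    (nu_ge : ∀ F D : Finset (Finset V), D ⊆ F → (D : Set (Finset V)).PairwiseDisjoint id →
      D.card ≤ nu F) :
    ∃ E' : Set (Finset V), LocFin E' ∧ Spans E' E := by
  obtain ⟨D, hDE, hdis, f, hf, hcov⟩ := h
  choose! g hgD hge using hcov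
  refine ⟨D, ?_, hDE, ?_⟩
  · intro v
    apply Set.Subsingleton.finite
    intro a ha b hb
    by_contra hne
    have := hdis ha.1 hb.1 hne
    exact (Finset.disjoint_left.1 this) ha.2 hb.2
  · intro F hF G0 hG0
    have hGD : ((G0 ∪ F.image g : Finset (Finset V)) : Set (Finset V)) ⊆ D := by
      intro d hd
      have hd' : d ∈ G0 ∪ F.image g := hd
      rcases Finset.mem_union.1 hd' with h1 | h1
      · exact hG0 h1
      · obtain ⟨e, he, rfl⟩ := Finset.mem_image.1 h1
        exact hgD e (hF he)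
    refine ⟨G0 ∪ F.image g, Finset.subset_union_left, hGD, ?_⟩
    set G := G0 ∪ F.image g with hG
    apply le_antisymm
    · obtain ⟨M, hM, hMd, hMc⟩ := nu_att (G ∪ F)
      rw [← hMc]
      refine le_trans ?_ (nu_ge G G (Finset.Subset.refl _) (hdis.subset hGD))
      have key : ∀ e ∈ M, (if e ∈ G then e else g e) ∈ G ∧ f (if e ∈ G then e else g e) ∈ e := by
        intro e he
        by_cases h1 : e ∈ G
        · rw [if_pos h1]
          exact ⟨h1, hf e (hGD h1)⟩
        · rw [if_neg h1]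
          have heF : e ∈ F := (Finset.mem_union.1 (hM he)).resolve_left h1
          exact ⟨Finset.mem_union_right _ (Finset.mem_image_of_mem g heF), hge e (hF heF)⟩
      refine Finset.card_le_card_of_injOn (fun e => if e ∈ G then e else g e)
        (fun e he => (key e he).1) ?_
      intro e he e' he' hee
      by_contra hne
      have h1 := (key e he).2
      have h2 := (key e' he').2
      simp only at hee
      rw [hee] at h1
      exact (Finset.disjoint_left.1 (hMd he he' hne)) h1 h2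
    · exact nu_mono _ _ Finset.subset_union_left


end Pool.Agent.Helper830.KC
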